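import Mathlib

namespace Pool.Agent.H.MP_1fe139_gt

open Set Filter Topology Cardinal

noncomputable section

abbrev C : Type := ℕ → Bool

structure Dat (E Z I Q : Type) where
  val : Q → I → Bool
  col : I → C
  colz : Z → C
  c : E → Z → I → Prop
  dense : ∀ (σ : Finset I) (g : I → Bool), ∃ q, ∀ j ∈ σ, val q j = g j
  qsep : ∀ q q', q ≠ q' → ∀ a b, ∃ j, col j ≠ a ∧ col j ≠ b ∧ val q j ≠ val q' j
  csupp : ∀ p z j, c p z j → col j = colz z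
  cne : ∀ p z, ∃ j, c p z j
  csep : ∀ z z', z ≠ z' → ∃ σ : Finset I, ∀ p, ∃ j ∈ σ, ¬ (c p z j ↔ c p z' j)
  acc : ∀ S : Set E, S.Infinite → ∀ a, ∃ z, colz z = a ∧
    ∀ σ : Finset I, ∃ p ∈ S, ∀ j ∈ σ, ¬ c p z j

variable {E Z I Q : Type}

def Sp (_d : Dat E Z I Q) : Type := (E ⊕ Z) × Q

variable {d : Dat E Z I Q}

def pl (d : Dat E Z I Q) (p : E) (q : Q) : Sp d := (Sum.inl p, q)

def pr (d : Dat E Z I Q) (z : Z) (q : Q) : Sp d := (Sum.inr z, q)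

theorem Sp_cases (x : Sp d) : (∃ p q, x = pl d p q) ∨ ∃ z q, x = pr d z q := by
  rcases x with ⟨p | z, q⟩
  · exact Or.inl ⟨p, q, rfl⟩
  · exact Or.inr ⟨z, q, rfl⟩

open Classical in
def φ (d : Dat E Z I Q) (p : E) (z : Z) (q : Q) (j : I) : Bool :=
  if d.c p z j then !d.val q j else d.val q j

theorem φ_of_not {p : E} {z : Z} {q : Q} {j : I} (h : ¬ d.c p z j) : φ d p z q j = d.val q j :=
  if_neg h

theorem φ_of {p : E} {z : Z} {q : Q} {j : I} (h : d.c p z j) : φ d p z q j ≠ d.val q j := by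
  simp [φ, h]

/-- `R x σ p q'` says that the point `(p, q')` is `σ`-close to `x`. -/
def R (x : Sp d) (σ : Finset I) (p : E) (q' : Q) : Prop :=
  Sum.elim (fun p₀ => p = p₀ ∧ ∀ j ∈ σ, d.val q' j = d.val x.2 j)
    (fun z => ∀ j ∈ σ, d.val q' j = φ d p z x.2 j) x.1

theorem R.anti {x : Sp d} {σ τ : Finset I} (h : σ ⊆ τ) {p : E} {q' : Q} (hR : R x τ p q') :
    R x σ p q' := by
  rcases Sp_cases x with ⟨p₀, q, rfl⟩ | ⟨z, q, rfl⟩
  · exact ⟨hR.1, fun j hj => hR.2 j (h hj)⟩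
  · exact fun j hj => hR j (h hj)

def Nb (x : Sp d) (σ : Finset I) : Set (Sp d) :=
  {y | y = x ∨ ∃ p q', y = pl d p q' ∧ R x σ p q'}

theorem Nb_anti (x : Sp d) {σ τ : Finset I} (h : σ ⊆ τ) : Nb x τ ⊆ Nb x σ := by
  rintro y (rfl | ⟨p, q', rfl, hR⟩)
  · exact Or.inl rfl
  · exact Or.inr ⟨p, q', rfl, hR.anti h⟩

instance : TopologicalSpace (Sp d) where
  IsOpen O := ∀ x ∈ O, ∃ σ, Nb x σ ⊆ O
  isOpen_univ := fun _ _ => ⟨∅, subset_univ _⟩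
  isOpen_inter := by
    classical
    rintro s t hs ht p ⟨hps, hpt⟩
    obtain ⟨n, hn⟩ := hs p hps
    obtain ⟨m, hm⟩ := ht p hpt
    exact ⟨n ∪ m, subset_inter ((Nb_anti p Finset.subset_union_left).trans hn)
      ((Nb_anti p Finset.subset_union_right).trans hm)⟩
  isOpen_sUnion := by
    rintro s hs p ⟨O, hO, hp⟩
    obtain ⟨n, hn⟩ := hs O hO p hp
    exact ⟨n, hn.trans (subset_sUnion_of_mem hO)⟩

theorem isOpen_iff {O : Set (Sp d)} : IsOpen O ↔ ∀ x ∈ O, ∃ σ, Nb x σ ⊆ O := Iff.rfl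

theorem pl_inj {p p' : E} {q q' : Q} (h : pl d p q = pl d p' q') : p = p' ∧ q = q' :=
  ⟨Sum.inl.inj (congrArg Prod.fst h), congrArg Prod.snd h⟩

theorem isOpen_Nb (x : Sp d) (σ : Finset I) : IsOpen (Nb x σ) := by
  refine isOpen_iff.2 ?_
  rintro y (rfl | ⟨p, q', rfl, hR⟩)
  · exact ⟨σ, Subset.rfl⟩
  · refine ⟨σ, ?_⟩
    rintro w (rfl | ⟨p', q'', rfl, rfl, h2⟩)
    · exact Or.inr ⟨p, q', rfl, hR⟩
    · refine Or.inr ⟨p', q'', rfl, ?_⟩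
      rcases Sp_cases x with ⟨p₀, q, rfl⟩ | ⟨z, q, rfl⟩
      · exact ⟨hR.1, fun j hj => (h2 j hj).trans (hR.2 j hj)⟩
      · exact fun j hj => (h2 j hj).trans (hR j hj)

theorem basis (x : Sp d) : (𝓝 x).HasBasis (fun _ : Finset I => True) (Nb x) := by
  refine ⟨fun s => ⟨fun hs => ?_, fun ⟨n, _, hn⟩ => ?_⟩⟩
  · obtain ⟨t, hts, ht, hp⟩ := mem_nhds_iff.1 hs
    obtain ⟨n, hn⟩ := isOpen_iff.1 ht x hp
    exact ⟨n, trivial, hn.trans hts⟩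
  · exact mem_of_superset ((isOpen_Nb x n).mem_nhds (Or.inl rfl)) hn

theorem R_self (p : E) (q : Q) (σ : Finset I) : R (pl d p q) σ p q := ⟨rfl, fun _ _ => rfl⟩

theorem sepR {x y : Sp d} (h : x ≠ y) : ∃ σ, ∀ p q, R x σ p q → R y σ p q → False := by
  have lr : ∀ p q z q', ∃ σ, ∀ p' q'', R (pl d p q) σ p' q'' → R (pr d z q') σ p' q'' → False := by
    intro p q z q'
    have : ∃ j, φ d p z q' j ≠ d.val q j := by
      by_cases hq : q' = q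
      · obtain ⟨j, hj⟩ := d.cne p z
        exact ⟨j, hq ▸ φ_of hj⟩
      · obtain ⟨j, h1, -, h3⟩ := d.qsep _ _ hq (d.colz z) (d.colz z)
        exact ⟨j, by rwa [φ_of_not fun h => h1 (d.csupp _ _ _ h)]⟩
    obtain ⟨j, hj⟩ := this
    refine ⟨{j}, ?_⟩
    rintro p' q'' ⟨rfl, h1⟩ h2
    exact hj ((h2 j (Finset.mem_singleton_self _)).symm.trans (h1 j (Finset.mem_singleton_self _)))
  rcases Sp_cases x with ⟨p, q, rfl⟩ | ⟨z, q, rfl⟩ <;>
    rcases Sp_cases y with ⟨p', q', rfl⟩ | ⟨z', q', rfl⟩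
  · by_cases hp : p = p'
    · have hq : q ≠ q' := fun hq => h (by rw [hp, hq])
      obtain ⟨j, -, -, hj⟩ := d.qsep _ _ hq default default
      exact ⟨{j}, fun p'' q'' h1 h2 => hj ((h1.2 j (Finset.mem_singleton_self _)).symm.trans
        (h2.2 j (Finset.mem_singleton_self _)))⟩
    · exact ⟨∅, fun p'' q'' h1 h2 => hp (h1.1.symm.trans h2.1)⟩
  · exact lr _ _ _ _
  · obtain ⟨σ, hσ⟩ := lr p' q' z q
    exact ⟨σ, fun a b h1 h2 => hσ a b h2 h1⟩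
  · by_cases hq : q = q'
    · subst hq
      obtain ⟨σ, hσ⟩ := d.csep z z' fun hz => h (by rw [hz])
      refine ⟨σ, fun p q'' h1 h2 => ?_⟩
      obtain ⟨j, hj, hc⟩ := hσ p
      have h3 : φ d p z q j = φ d p z' q j := (h1 j hj).symm.trans (h2 j hj)
      by_cases a : d.c p z j
      · have b : ¬ d.c p z' j := fun b => hc ⟨fun _ => b, fun _ => a⟩
        exact φ_of a (h3.trans (φ_of_not b))
      · have b : d.c p z' j := by_contra fun b => hc ⟨fun h => absurd h a, fun h => absurd h b⟩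
        exact φ_of b (h3.symm.trans (φ_of_not a))
    · obtain ⟨j, h1, h2, hj⟩ := d.qsep _ _ hq (d.colz z) (d.colz z')
      refine ⟨{j}, fun p q'' a b => hj ?_⟩
      have a' : d.val q'' j = φ d p z q j := a j (Finset.mem_singleton_self _)
      have b' : d.val q'' j = φ d p z' q' j := b j (Finset.mem_singleton_self _)
      rw [φ_of_not fun h => h1 (d.csupp _ _ _ h)] at a'
      rw [φ_of_not fun h => h2 (d.csupp _ _ _ h)] at b'
      exact a'.symm.trans b'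

instance : T2Space (Sp d) where
  t2 x y h := by
    obtain ⟨σ, hσ⟩ := sepR h
    refine ⟨Nb x σ, Nb y σ, isOpen_Nb _ _, isOpen_Nb _ _, Or.inl rfl, Or.inl rfl,
      disjoint_left.2 ?_⟩
    rintro w (rfl | ⟨p, q, rfl, h1⟩) (h2 | ⟨p', q', h2, h3⟩)
    · exact h h2
    · subst h2
      exact hσ _ _ (R_self _ _ _) h3
    · subst h2
      exact hσ _ _ h1 (R_self _ _ _)
    · obtain ⟨rfl, rfl⟩ := pl_inj h2
      exact hσ _ _ h1 h3

theorem mem_cl {x : Sp d} {s : Set (Sp d)} (h : ∀ σ, ∃ p q, R x σ p q ∧ pl d p q ∈ s) :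
    x ∈ closure s :=
  (mem_closure_iff_nhds_basis (basis x)).2 fun σ _ =>
    let ⟨p, q, h1, h2⟩ := h σ
    ⟨_, h2, Or.inr ⟨p, q, rfl, h1⟩⟩

theorem sql_aux [Countable Q] [Nonempty E] {F : Set (Sp d)} (hF : IsClosed F)
    (U : F → Set (Sp d)) (hU : ∀ x, IsOpen (U x) ∧ x.1 ∈ U x) (n : F → ℕ) :
    ∃ T : Set F, T.Countable ∧ ∀ x ∈ F, ∃ m, x ∈ closure (⋃ y ∈ T ∩ n ⁻¹' {m}, U y) := by
  classical
  choose σ hσ using fun x : F => isOpen_iff.1 (hU x).1 _ (hU x).2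
  have mono : ∀ {T T' : Set F} (_ : T ⊆ T') {x : Sp d},
      (∃ m, x ∈ closure (⋃ y ∈ T ∩ n ⁻¹' {m}, U y)) →
        ∃ m, x ∈ closure (⋃ y ∈ T' ∩ n ⁻¹' {m}, U y) := fun h _ ⟨m, hm⟩ =>
    ⟨m, closure_mono (biUnion_subset_biUnion_left (inter_subset_inter_left _ h)) hm⟩
  have hA : ∃ T : Set F, T.Countable ∧ ∀ z q, pr d z q ∈ F →
      ∃ m, pr d z q ∈ closure (⋃ y ∈ T ∩ n ⁻¹' {m}, U y) := by
    obtain ⟨p⟩ := ‹Nonempty E›
    let A := {a : ℕ × Q // ∃ y : F, n y = a.1 ∧ pl d p a.2 ∈ U y}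
    choose w hw1 hw2 using fun a : A => a.2
    refine ⟨range w, countable_range w, fun z q hz => ⟨n ⟨_, hz⟩, mem_cl fun τ => ?_⟩⟩
    obtain ⟨q', hq'⟩ := d.dense (τ ∪ σ ⟨_, hz⟩) (φ d p z q)
    have h1 : R (pr d z q) (τ ∪ σ ⟨_, hz⟩) p q' := hq'
    have h2 : pl d p q' ∈ U ⟨_, hz⟩ :=
      hσ _ (Or.inr ⟨p, q', rfl, h1.anti Finset.subset_union_right⟩)
    let a : A := ⟨(n ⟨_, hz⟩, q'), _, rfl, h2⟩
    exact ⟨p, q', h1.anti Finset.subset_union_left,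
      mem_biUnion (x := w a) ⟨mem_range_self a, hw1 a⟩ (hw2 a)⟩
  have hB : ∀ q, ∃ T : Set F, T.Countable ∧ ∀ p, pl d p q ∈ F →
      ∃ m, pl d p q ∈ closure (⋃ y ∈ T ∩ n ⁻¹' {m}, U y) := by
    intro q
    by_cases hS : {p | pl d p q ∈ F}.Finite
    · refine ⟨Subtype.val ⁻¹' ((fun p => pl d p q) '' {p | pl d p q ∈ F}),
        (hS.image _).countable.preimage Subtype.val_injective, fun p hp => ⟨n ⟨_, hp⟩, ?_⟩⟩
      exact subset_closure (mem_biUnion (x := ⟨_, hp⟩) ⟨⟨p, hp, rfl⟩, rfl⟩ (hU _).2)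
    · choose z hz1 hz2 using d.acc _ hS
      have hzF : ∀ a, pr d (z a) q ∈ F := fun a => hF.closure_subset (mem_cl fun τ => by
        obtain ⟨p, hp, h⟩ := hz2 a τ
        exact ⟨p, q, fun j hj => (φ_of_not (h j hj)).symm, hp⟩)
      obtain ⟨m, hm⟩ := exists_infinite_fiber' (fun a => n ⟨_, hzF a⟩)
        (by simpa using aleph0_lt_continuum)
      obtain ⟨g⟩ : Nonempty (ℕ ↪ ((fun a => n ⟨_, hzF a⟩) ⁻¹' {m})) :=
        ⟨Infinite.natEmbedding _⟩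
      refine ⟨range fun k => ⟨_, hzF (g k).1⟩, countable_range _, fun p _ => ⟨m, mem_cl fun τ => ?_⟩⟩
      obtain ⟨k, hk⟩ : ∃ k, (g k).1 ∉ τ.image d.col := by
        by_contra hcon
        simp only [not_exists, not_not] at hcon
        exact (infinite_range_of_injective (Subtype.val_injective.comp g.injective)).not_finite
          ((τ.image d.col).finite_toSet.subset (range_subset_iff.2 hcon))
      obtain ⟨q', hq'⟩ := d.dense (τ ∪ σ ⟨_, hzF (g k).1⟩) (φ d p (z (g k).1) q)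
      refine ⟨p, q', ⟨rfl, fun j hj => ?_⟩,
        mem_biUnion (x := ⟨_, hzF (g k).1⟩) ⟨mem_range_self k, (g k).2⟩ (hσ _ (Or.inr
          ⟨p, q', rfl, fun j hj => hq' j (Finset.mem_union_right _ hj)⟩))⟩
      rw [hq' j (Finset.mem_union_left _ hj)]
      refine φ_of_not fun h => hk ?_
      rw [← hz1 (g k).1, ← d.csupp _ _ _ h]
      exact Finset.mem_image_of_mem _ hj
  obtain ⟨TA, hA1, hA2⟩ := hA
  choose TB hB1 hB2 using hB
  refine ⟨TA ∪ ⋃ q, TB q, hA1.union (countable_iUnion hB1), fun x hx => ?_⟩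
  rcases Sp_cases x with ⟨p, q, rfl⟩ | ⟨z, q, rfl⟩
  · exact mono ((subset_iUnion TB q).trans subset_union_right) (hB2 q p hx)
  · exact mono subset_union_left (hA2 z q hx)

theorem sql [Countable Q] [Nonempty E] (F : Set (Sp d)) (hF : IsClosed F)
    (𝒰 : ℕ → Set (Set (Sp d))) (hU : ∀ n, ∀ U ∈ 𝒰 n, IsOpen U) (hc : F ⊆ ⋃₀ (⋃ n, 𝒰 n)) :
    ∃ 𝒱 : ℕ → Set (Set (Sp d)), (∀ n, 𝒱 n ⊆ 𝒰 n ∧ (𝒱 n).Countable) ∧
      F ⊆ ⋃ n, closure (⋃₀ 𝒱 n) := by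
  have : ∀ x : F, ∃ n U, U ∈ 𝒰 n ∧ x.1 ∈ U := fun x => by
    obtain ⟨U, hU, hx⟩ := hc x.2
    obtain ⟨n, hn⟩ := mem_iUnion.1 hU
    exact ⟨n, U, hn, hx⟩
  choose n U h1 h2 using this
  obtain ⟨T, hT, hT2⟩ := sql_aux hF U (fun x => ⟨hU _ _ (h1 x), h2 x⟩) n
  refine ⟨fun m => U '' (T ∩ n ⁻¹' {m}), fun m => ⟨?_, (hT.mono inter_subset_left).image _⟩,
    fun x hx => ?_⟩
  · rintro _ ⟨y, ⟨-, rfl⟩, rfl⟩
    exact h1 y
  · obtain ⟨m, hm⟩ := hT2 x hx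
    exact mem_iUnion.2 ⟨m, by rwa [sUnion_image]⟩

end

end Pool.Agent.H.MP_1fe139_gt
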