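import Mathlib
import Pool.Agent.H.MP_1fe139_gt.A
import Pool.Agent.H.MP_93f147_gt.A

namespace Pool.Agent.H.MP_1fe139_gt

open Set Filter Topology Cardinal
open Pool.Agent.H.MP_93f147_gt (Dl exists_Dl ultra_bool)

noncomputable section

theorem exists_sel {A ι : Type} (P : ι → Set A) (κ : Cardinal) (hι : #ι ≤ κ)
    (hP : ∀ i, κ ≤ #(P i)) : ∃ f : ι → A, (∀ i, f i ∈ P i) ∧ Function.Injective f := by
  let I : Type := (#ι).ord.ToType
  obtain ⟨e⟩ : Nonempty (I ≃ ι) := Cardinal.eq.1 (mk_ord_toType _)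
  have hI : ∀ a : I, #(Iio a) < κ := fun a => lt_of_lt_of_le (mk_Iio_toType_ord_lt a) hι
  have step : ∀ (a : I) (prev : ∀ c, c < a → A), ∃ r ∈ P (e a),
      r ∉ range fun c : Iio a => prev c.1 c.2 := by
    intro a prev
    have h1 : #(range fun c : Iio a => prev c.1 c.2) < #(P (e a)) :=
      (mk_range_le.trans_lt (hI a)).trans_le (hP _)
    exact not_subset.1 fun h => (mk_le_mk_of_subset h).not_gt h1
  choose F hF using step
  let x : I → A := (wellFounded_lt (α := I)).fix F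
  have hx : ∀ a, x a = F a (fun c _ => x c) := fun a => WellFounded.fix_eq _ F a
  have h1 : ∀ a, x a ∈ P (e a) := fun a => by rw [hx]; exact (hF a _).1
  have h2 : ∀ a b, a < b → x a ≠ x b := fun a b h he => by
    have := (hF b fun c _ => x c).2
    rw [← hx] at this
    exact this ⟨⟨a, h⟩, he⟩
  refine ⟨x ∘ e.symm, fun i => by simpa using h1 (e.symm i),
    Function.Injective.comp (fun a b hab => ?_) e.symm.injective⟩
  rcases lt_trichotomy a b with h | h | h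
  · exact absurd hab (h2 a b h)
  · exact h
  · exact absurd hab.symm (h2 b a h)

def rs (m : ℕ) (j : C × C) : (Fin m → Bool) × (Fin m → Bool) := (fun i => j.1 i, fun i => j.2 i)

def QQ : Type := {u : C × C → Bool //
  ∃ (m : ℕ) (g : (Fin m → Bool) × (Fin m → Bool) → Bool), u = fun j => g (rs m j)}

instance : Countable QQ := by
  refine Function.Surjective.countable
    (f := fun a : Σ m : ℕ, ((Fin m → Bool) × (Fin m → Bool) → Bool) =>
      (⟨fun j => a.2 (rs a.1 j), a.1, a.2, rfl⟩ : QQ)) ?_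
  rintro ⟨u, m, g, rfl⟩
  exact ⟨⟨m, g⟩, rfl⟩

theorem QQ_dense (σ : Finset (C × C)) (g : C × C → Bool) : ∃ q : QQ, ∀ j ∈ σ, q.1 j = g j := by
  classical
  have h0 : ∀ a b : C, ∀ᶠ m in atTop, (fun i : Fin m => a i) = (fun i : Fin m => b i) → a = b := by
    intro a b
    by_cases hab : a = b
    · exact Eventually.of_forall fun _ _ => hab
    · obtain ⟨t, ht⟩ := Function.ne_iff.1 hab
      filter_upwards [eventually_gt_atTop t] with m hm h
      exact absurd (congrFun h ⟨t, hm⟩) ht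
  have h : ∀ a b : C × C, ∀ᶠ m in atTop, rs m a = rs m b → a = b := fun a b => by
    filter_upwards [h0 a.1 b.1, h0 a.2 b.2] with m h1 h2 h
    exact Prod.ext (h1 (congrArg Prod.fst h)) (h2 (congrArg Prod.snd h))
  obtain ⟨m, hm⟩ := ((eventually_all_finset σ).2 fun x _ => (eventually_all_finset σ).2
    fun y _ => h x y).exists
  refine ⟨⟨_, m, fun a => if h : ∃ j ∈ σ, rs m j = a then g h.choose else false, rfl⟩,
    fun j hj => ?_⟩
  have h1 : ∃ j' ∈ σ, rs m j' = rs m j := ⟨j, hj, rfl⟩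
  show (if h : ∃ j' ∈ σ, rs m j' = rs m j then g h.choose else false) = g j
  rw [dif_pos h1, hm _ h1.choose_spec.1 j hj h1.choose_spec.2]

theorem QQ_sep (q q' : QQ) (h : q ≠ q') (a b : C) :
    ∃ j : C × C, j.1 ≠ a ∧ j.1 ≠ b ∧ q.1 j ≠ q'.1 j := by
  obtain ⟨_, m, g, rfl⟩ := q
  obtain ⟨_, m', g', rfl⟩ := q'
  obtain ⟨j, hj⟩ := Function.ne_iff.1 (Subtype.coe_ne_coe.2 h)
  let x : C := fun i => if i = m + m' then !a i else if i = m + m' + 1 then !b i else j.1 i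
  have hx : ∀ k ≤ m + m', rs k (x, j.2) = rs k j := fun k hk => by
    refine Prod.ext (funext fun i => ?_) rfl
    have := i.2
    show x i = j.1 i
    simp only [x]
    rw [if_neg (by omega), if_neg (by omega)]
  refine ⟨(x, j.2), fun h => ?_, fun h => ?_, ?_⟩
  · have := congrFun h (m + m')
    simp [x] at this
  · have := congrFun h (m + m' + 1)
    simp [x] at this
  · show g (rs m (x, j.2)) ≠ g' (rs m' (x, j.2))
    rw [hx m (by omega), hx m' (by omega)]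
    exact hj

theorem many_ultra : (2 : Cardinal) ^ 𝔠 ≤ #{V : Ultrafilter ℕ | (V : Filter ℕ) ≤ cofinite} := by
  classical
  have : Nonempty QQ := ⟨(QQ_dense ∅ fun _ => true).choose⟩
  obtain ⟨u, hu⟩ := exists_surjective_nat QQ
  have h1 : ∀ x : C × C → Bool, ∃ V : Ultrafilter ℕ, (V : Filter ℕ) ≤ cofinite ∧
      ∀ j, {n | (u n.unpair.1).1 j = x j} ∈ V := by
    intro x
    let G : Finset (C × C) × ℕ → Filter ℕ := fun a =>
      𝓟 {n | a.2 ≤ n ∧ ∀ j ∈ a.1, (u n.unpair.1).1 j = x j}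
    have hne : (⨅ a, G a).NeBot := by
      refine iInf_neBot_of_directed (fun a b => ⟨(a.1 ∪ b.1, max a.2 b.2), ?_, ?_⟩) fun a => ?_
      · exact principal_mono.2 fun n hn => ⟨(le_max_left _ _).trans hn.1,
          fun j hj => hn.2 j (Finset.mem_union_left _ hj)⟩
      · exact principal_mono.2 fun n hn => ⟨(le_max_right _ _).trans hn.1,
          fun j hj => hn.2 j (Finset.mem_union_right _ hj)⟩
      · obtain ⟨q, hq⟩ := QQ_dense a.1 x
        obtain ⟨k, rfl⟩ := hu q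
        exact principal_neBot_iff.2 ⟨Nat.pair k a.2, Nat.right_le_pair _ _, by simpa using hq⟩
    obtain ⟨V, hV⟩ := Ultrafilter.exists_le (⨅ a, G a)
    have hG : ∀ a : Finset (C × C) × ℕ,
        {n | a.2 ≤ n ∧ ∀ j ∈ a.1, (u n.unpair.1).1 j = x j} ∈ V := fun a =>
      le_principal_iff.1 (hV.trans (iInf_le G a))
    refine ⟨V, ?_, fun j => mem_of_superset (hG ({j}, 0))
      fun n hn => hn.2 j (Finset.mem_singleton_self _)⟩
    rw [Nat.cofinite_eq_atTop]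
    exact atTop_basis.ge_iff.2 fun k _ => mem_of_superset (hG (∅, k)) fun n hn => hn.1
  choose V hV1 hV2 using h1
  have h2 : #(C × C → Bool) ≤ #{V : Ultrafilter ℕ | (V : Filter ℕ) ≤ cofinite} := by
    refine mk_le_of_injective (f := fun x => ⟨V x, hV1 x⟩) fun x y h => funext fun j => ?_
    have h3 : V x = V y := congrArg Subtype.val h
    obtain ⟨n, h4, h5⟩ := Ultrafilter.nonempty_of_mem (inter_mem (hV2 x j) (h3 ▸ hV2 y j))
    exact h4.symm.trans h5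
  simpa using h2

variable {W : Type} [LinearOrder W]

def Nd (W : Type) [LinearOrder W] : Type := {s : Set (W → Bool) // ∃ b γ, s = {p | Dl b p γ}}

def Comb (W : Type) [LinearOrder W] : Type :=
  {f : ℕ → Nd W // Function.Injective f ∧ ∃ b, ∀ n, ∃ γ, (f n).1 = {p | Dl b p γ}}

theorem side_eq {b b' : W → Bool} {γ : W} (h : ∀ δ ≤ γ, b δ = b' δ) :
    {p | Dl b p γ} = {p | Dl b' p γ} := by
  ext p
  simp only [mem_ofPred_eq, Dl, h γ le_rfl]
  exact and_congr_right fun _ => forall₂_congr fun δ hδ => by rw [h δ hδ.le]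

theorem mk_Nd {κ : Cardinal} (hκ : ℵ₀ ≤ κ) (hW : #W ≤ κ) (h : ∀ γ : W, 2 ^ #(Iic γ) ≤ κ) :
    #(Nd W) ≤ κ := by
  classical
  have h1 : #(Nd W) ≤ #(Σ γ : W, (Iic γ → Bool)) := by
    refine mk_le_of_surjective (f := fun a => ⟨_, fun δ => if h : δ ≤ a.1 then a.2 ⟨δ, h⟩
      else false, a.1, rfl⟩) ?_
    rintro ⟨_, b, γ, rfl⟩
    refine ⟨⟨γ, fun δ => b δ⟩, Subtype.ext ?_⟩
    exact side_eq (γ := γ) (b := fun δ => if h : δ ≤ γ then b δ else false) (b' := b)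
      fun δ hδ => dif_pos hδ
  refine h1.trans ?_
  rw [mk_sigma]
  refine (sum_le_sum _ (fun _ => κ) fun γ => by simpa using h γ).trans ?_
  rw [sum_const']
  exact (mul_le_mul' hW le_rfl).trans (mul_eq_self hκ).le

theorem comb_uniq (f : Comb W) (p : W → Bool) : {n | p ∈ (f.1 n).1}.Subsingleton := by
  obtain ⟨b, hb⟩ := f.2.2
  intro n hn n' hn'
  obtain ⟨γ, hγ⟩ := hb n
  obtain ⟨γ', hγ'⟩ := hb n'
  rw [mem_ofPred_eq, hγ] at hn
  rw [mem_ofPred_eq, hγ'] at hn'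
  obtain rfl := Dl.unique hn hn'
  exact f.2.1 (Subtype.ext (hγ.trans hγ'.symm))

theorem comb_sep (f f' : Comb W) : ∃ A A' : Set ℕ, A.Finite ∧ A'.Finite ∧
    ∀ n ∉ A, ∀ n' ∉ A', ∀ p ∈ (f.1 n).1, p ∈ (f'.1 n').1 → f.1 n = f'.1 n' := by
  obtain ⟨b, hb⟩ := f.2.2
  obtain ⟨b', hb'⟩ := f'.2.2
  have key : ∀ (f : Comb W) (b b' : W → Bool),
      {n | ∃ γ, Dl b b' γ ∧ (f.1 n).1 = {p | Dl b p γ}}.Finite := by
    intro f b b'
    refine Set.Subsingleton.finite ?_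
    rintro n ⟨γ, h1, h2⟩ n' ⟨γ', h1', h2'⟩
    obtain rfl := h1.unique h1'
    exact f.2.1 (Subtype.ext (h2.trans h2'.symm))
  refine ⟨_, _, key f b b', key f' b' b, fun n hn n' hn' p hp hp' => ?_⟩
  obtain ⟨γ, hγ⟩ := hb n
  obtain ⟨γ', hγ'⟩ := hb' n'
  rw [hγ] at hp
  rw [hγ'] at hp'
  rcases lt_trichotomy γ γ' with h | rfl | h
  · exact absurd ⟨γ, ⟨(hp'.2 γ h).symm ▸ hp.1,
      fun δ hδ => (hp.2 δ hδ).trans (hp'.2 δ (hδ.trans h)).symm⟩, hγ⟩ hn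
  · refine Subtype.ext (hγ.trans ((side_eq fun δ hδ => ?_).trans hγ'.symm))
    rcases hδ.eq_or_lt with rfl | hδ
    · have h1 := hp.1
      have h2 := hp'.1
      revert h1 h2
      cases b δ <;> cases b' δ <;> cases p δ <;> simp
    · exact (hp.2 δ hδ).trans (hp'.2 δ hδ).symm
  · exact absurd ⟨γ', ⟨(hp.2 γ' h).symm ▸ hp'.1,
      fun δ hδ => (hp'.2 δ hδ).trans (hp.2 δ (hδ.trans h)).symm⟩, hγ'⟩ hn'

theorem exists_comb [WellFoundedLT W] (S : Set (W → Bool)) (hS : S.Infinite) :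
    ∃ f : Comb W, ∀ n, ∃ p ∈ S, p ∈ (f.1 n).1 := by
  have : (cofinite ⊓ 𝓟 S).NeBot := hS.cofinite_inf_principal_neBot
  obtain ⟨𝒰, h𝒰⟩ := Ultrafilter.exists_le (cofinite ⊓ 𝓟 S)
  choose b hb using fun γ => ultra_bool 𝒰 (fun p : W → Bool => p γ)
  have hΓ : {γ | ∃ p ∈ S, Dl b p γ}.Infinite := by
    intro hfin
    have h1 : ∀ᶠ p : W → Bool in 𝒰, ∀ γ ∈ {γ | ∃ p ∈ S, Dl b p γ}, p γ = b γ :=
      (eventually_all_finite hfin).2 fun γ _ => hb γ
    have h2 : ∀ᶠ p : W → Bool in 𝒰, p ∈ S := le_principal_iff.1 (h𝒰.trans inf_le_right)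
    have h3 : ∀ᶠ p : W → Bool in 𝒰, p ≠ b := (eventually_cofinite_ne b).filter_mono (h𝒰.trans inf_le_left)
    obtain ⟨p, ⟨h1, h2⟩, h3⟩ := ((h1.and h2).and h3).exists
    obtain ⟨γ, hγ⟩ := exists_Dl h3.symm
    exact hγ.1 (h1 γ ⟨p, h2, hγ⟩).symm
  let g := hΓ.natEmbedding
  refine ⟨⟨fun n => ⟨_, b, (g n).1, rfl⟩, fun n n' h => ?_, b, fun n => ⟨_, rfl⟩⟩, fun n => (g n).2⟩
  obtain ⟨p, -, hp⟩ := (g n).2
  have h1 : {p | Dl b p (g n).1} = {p | Dl b p (g n').1} := congrArg Subtype.val h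
  have h2 : p ∈ {p | Dl b p (g n').1} := h1 ▸ hp
  exact g.injective (Subtype.ext (hp.unique h2))

theorem exists_dat [WellFoundedLT W] (hN : #(Nd W) ≤ 2 ^ 𝔠) :
    Nonempty (Dat (W → Bool) (Comb W × C) (C × C) QQ) := by
  classical
  have hZ : #(Comb W × C) ≤ 2 ^ 𝔠 := by
    have h1 : #(Comb W) ≤ 2 ^ 𝔠 := by
      refine (mk_subtype_le _).trans ?_
      have : #(ℕ → Nd W) = #(Nd W) ^ ℵ₀ := by simp
      rw [this]
      refine (power_le_power_right hN).trans ?_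
      rw [← power_mul, continuum_mul_aleph0]
    have h2 : #C ≤ 2 ^ 𝔠 := by simpa using (cantor 𝔠).le
    rw [mk_prod, lift_id, lift_id]
    exact (mul_le_mul' h1 h2).trans (mul_eq_self (aleph0_le_continuum.trans (cantor 𝔠).le)).le
  obtain ⟨g, hg1, hg2⟩ := exists_sel (fun z : Comb W × C =>
    Ultrafilter.map z.1.1 '' {V : Ultrafilter ℕ | (V : Filter ℕ) ≤ cofinite}) _ hZ fun z => by
      rw [mk_image_eq]
      · exact many_ultra
      · intro V V' h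
        exact Ultrafilter.coe_injective (map_injective z.1.2.1 (congrArg Ultrafilter.toFilter h))
  choose V hV1 hV2 using hg1
  obtain ⟨β⟩ : Nonempty ((Comb W × C) ↪ (C → Bool)) := (le_def _ _).1 (by simpa using hZ)
  obtain ⟨code⟩ : Nonempty ((C × Bool × Set ℕ) ↪ C) := (le_def _ _).1 (by simp)
  let c : (W → Bool) → Comb W × C → C × C → Prop := fun p z j =>
    j.1 = z.2 ∧ ∃ i Y, j.2 = code (i, β z i, Y) ∧ Y ∈ V z ∧ ∀ n ∈ Y, p ∉ (z.1.1 n).1
  refine ⟨⟨Subtype.val, Prod.fst, Prod.snd, c, QQ_dense, QQ_sep, fun p z j h => h.1, ?_, ?_, ?_⟩⟩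
  · intro p z
    exact ⟨(z.2, code (default, β z default, {n | p ∈ (z.1.1 n).1}ᶜ)), rfl, _, _, rfl,
      hV1 z (comb_uniq z.1 p).finite.compl_mem_cofinite, fun n hn => hn⟩
  · intro z z' hne
    obtain ⟨i, hi⟩ := Function.ne_iff.1 (β.injective.ne hne)
    obtain ⟨B, hB, hB'⟩ : ∃ B, B ∈ g z ∧ Bᶜ ∈ g z' := by
      by_contra hcon
      refine hg2.ne hne (Ultrafilter.eq_of_le fun B hB' => ?_)
      by_contra hB
      exact hcon ⟨Bᶜ, Ultrafilter.compl_mem_iff_notMem.2 hB, by simpa using hB'⟩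
    rw [← hV2] at hB hB'
    obtain ⟨A, A', hA, hA', hAA⟩ := comb_sep z.1 z'.1
    let Y : Set ℕ := z.1.1 ⁻¹' B ∩ Aᶜ
    let Y' : Set ℕ := z'.1.1 ⁻¹' Bᶜ ∩ A'ᶜ
    have hY : Y ∈ V z := inter_mem hB (hV1 z hA.compl_mem_cofinite)
    have hY' : Y' ∈ V z' := inter_mem hB' (hV1 z' hA'.compl_mem_cofinite)
    refine ⟨{(z.2, code (i, β z i, Y)), (z'.2, code (i, β z' i, Y'))}, fun p => ?_⟩
    by_cases hp : ∀ n ∈ Y, p ∉ (z.1.1 n).1
    · refine ⟨_, Finset.mem_insert_self _ _, fun h => ?_⟩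
      obtain ⟨-, i', Y'', h1, -⟩ := h.1 ⟨rfl, i, Y, rfl, hY, hp⟩
      have h2 := code.injective h1
      simp only [Prod.mk.injEq] at h2
      obtain ⟨rfl, h3, -⟩ := h2
      exact hi h3
    · simp only [not_forall, not_not] at hp
      obtain ⟨n, hn, hpn⟩ := hp
      have hp' : ∀ n' ∈ Y', p ∉ (z'.1.1 n').1 := fun n' hn' hpn' =>
        hn'.1 (hAA n hn.2 n' hn'.2 p hpn hpn' ▸ hn.1)
      refine ⟨_, Finset.mem_insert_of_mem (Finset.mem_singleton_self _), fun h => ?_⟩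
      obtain ⟨-, i', Y'', h1, -⟩ := h.2 ⟨rfl, i, Y', rfl, hY', hp'⟩
      have h2 := code.injective h1
      simp only [Prod.mk.injEq] at h2
      obtain ⟨rfl, h3, -⟩ := h2
      exact hi h3.symm
  · intro S hS a
    obtain ⟨f, hf⟩ := exists_comb S hS
    refine ⟨(f, a), rfl, fun σ => ?_⟩
    have h1 : ∀ j : C × C, ∀ᶠ n in V (f, a), ∀ i Y, j.2 = code (i, β (f, a) i, Y) →
        Y ∈ V (f, a) → n ∈ Y := by
      intro j
      by_cases h : ∃ i Y, j.2 = code (i, β (f, a) i, Y) ∧ Y ∈ V (f, a)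
      · obtain ⟨i, Y, h2, h3⟩ := h
        filter_upwards [h3] with n hn i' Y' h4 _
        have h5 := code.injective (h2.symm.trans h4)
        simp only [Prod.mk.injEq] at h5
        exact h5.2.2 ▸ hn
      · exact Eventually.of_forall fun n i Y h2 h3 => absurd ⟨i, Y, h2, h3⟩ h
    obtain ⟨n, hn⟩ := ((eventually_all_finset σ).2 fun j _ => h1 j).exists
    obtain ⟨p, hp, hpn⟩ := hf n
    refine ⟨p, hp, ?_⟩
    rintro j hj ⟨-, i, Y, h2, h3, h4⟩
    exact h4 n (hn j hj i Y h2 h3) hpn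

theorem main : ∃ (X : Type) (_ : TopologicalSpace X), T2Space X ∧
    (∀ F : Set X, IsClosed F → ∀ 𝒰 : ℕ → Set (Set X), (∀ n, ∀ U ∈ 𝒰 n, IsOpen U) →
      F ⊆ ⋃₀ (⋃ n, 𝒰 n) → ∃ 𝒱 : ℕ → Set (Set X), (∀ n, 𝒱 n ⊆ 𝒰 n ∧ (𝒱 n).Countable) ∧
        F ⊆ ⋃ n, closure (⋃₀ 𝒱 n)) ∧
    (∀ x : X, ∃ ℬ : Set (Set X), #ℬ ≤ 𝔠 ∧ (∀ B ∈ ℬ, IsOpen B ∧ x ∈ B) ∧
      ∀ U, IsOpen U → x ∈ U → ∃ B ∈ ℬ, B ⊆ U) ∧ 2 ^ 𝔠 < #X := by
  obtain ⟨θ, hθ, hmin⟩ := Cardinal.lt_wf.has_min {μ : Cardinal.{0} | (2 : Cardinal.{0}) ^ 𝔠 < (2 : Cardinal.{0}) ^ μ}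
    ⟨_, cantor _⟩
  have h0 : ℵ₀ ≤ θ := by
    by_contra h
    exact absurd hθ (not_lt.2 (power_le_power_left two_ne_zero
      ((not_le.1 h).le.trans aleph0_le_continuum)))
  let W := θ.ord.ToType
  have hW : #W = θ := mk_ord_toType θ
  have hN : #(Nd W) ≤ 2 ^ 𝔠 := by
    refine mk_Nd (aleph0_le_continuum.trans (cantor 𝔠).le)
      (hW.trans_le (not_lt.1 (hmin _ (cantor _)))) fun γ => not_lt.1 fun h => hmin _ h ?_
    rw [← Iio_insert]
    exact mk_insert_le.trans_lt (add_lt_of_lt h0 (mk_Iio_toType_ord_lt γ)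
      (one_lt_aleph0.trans_le h0))
  obtain ⟨d⟩ := exists_dat hN
  refine ⟨Sp d, inferInstance, inferInstance, sql, fun x => ⟨range (Nb x), ?_, ?_, ?_⟩, ?_⟩
  · exact mk_range_le.trans (by simp)
  · rintro _ ⟨σ, rfl⟩
    exact ⟨isOpen_Nb _ _, Or.inl rfl⟩
  · intro U hU hx
    obtain ⟨σ, hσ⟩ := isOpen_iff.1 hU x hx
    exact ⟨_, ⟨σ, rfl⟩, hσ⟩
  · obtain ⟨q, -⟩ := QQ_dense ∅ fun _ => true
    refine lt_of_lt_of_le ?_ (mk_le_of_injective (f := fun p => pl d p q)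
      fun p p' h => (pl_inj h).1)
    have : #(W → Bool) = 2 ^ θ := by simp [hW]
    rw [this]
    exact hθ

end

end Pool.Agent.H.MP_1fe139_gt
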